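import Pool.Agent.Helper98.DISC.GoalsC

/-!
# Project DISC, packet DC2
-/

open MeasureTheory Set Filter Topology

noncomputable section

namespace Pool.Agent.Helper48.DISC

open Pool.Agent.Helper98.DISC

theorem cr_rot (a b c : ℂ) : cr a b c = cr c a b := by
  unfold cr; ring

theorem sqn (z : ℂ) : ‖z‖ ^ 2 = z.re ^ 2 + z.im ^ 2 := by
  rw [Complex.sq_norm, Complex.normSq_apply]; ring

theorem norm_lt_iff (z : ℂ) : ‖z‖ < 1 ↔ z.re ^ 2 + z.im ^ 2 < 1 := by
  rw [← sqn]
  constructor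
  · intro h
    exact pow_lt_one₀ (norm_nonneg _) h two_ne_zero
  · intro h
    by_contra h1
    push Not at h1
    have := one_le_pow₀ (n := 2) h1
    linarith

theorem dtn_eq (w z : ℂ) : dtn w z = ((1 - z.re) ^ 2 + z.im ^ 2) * (1 - w.re) -
    ((1 - w.re) ^ 2 + w.im ^ 2) * (1 - z.re) := by
  unfold dtn
  rw [sqn, sqn]
  simp

theorem ne_one_of {w : ℂ} (hw : ‖w‖ < 1) : (1 : ℂ) ≠ w := by
  intro h
  rw [← h, norm_one] at hw
  exact lt_irrefl _ hw

/-- DC2. -/
theorem dc2 (hD : S_DTN) (hK : S_KG) : S_DC2 := by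
  refine ⟨?_, ?_⟩
  · intro ι _ _ j z
    constructor
    · rintro ⟨⟨hP, hn⟩, hd⟩
      refine ⟨hn j, ⟨⟨?_, ?_, ?_, ?_⟩, ?_⟩, ⟨⟨?_, ?_, ?_, ?_⟩, ?_⟩⟩
      · rintro ⟨i, hi⟩
        exact hP.a2 i j hi
      · rintro ⟨i, hi⟩ ⟨i', hi'⟩ h
        exact hP.a2 i i' h
      · rintro ⟨i, hi⟩ ⟨i', hi'⟩ h
        exact hP.p3 i i' j h hi'
      · rintro ⟨i, hi⟩ ⟨i', hi'⟩ ⟨i'', hi''⟩ h h'
        exact hP.p3 i i' i'' h h'
      · rintro ⟨i, hi⟩
        exact hd i hi.ne
      · rintro ⟨i, hi⟩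
        rw [cr_rot]
        exact hP.a2 j i hi
      · rintro ⟨i, hi⟩ ⟨i', hi'⟩ h
        exact hP.p3 j i i' hi h
      · rintro ⟨i, hi⟩ ⟨i', hi'⟩ h
        rw [cr_rot]
        exact hP.a2 i i' h
      · rintro ⟨i, hi⟩ ⟨i', hi'⟩ ⟨i'', hi''⟩ h h'
        exact hP.p3 i i' i'' h h'
      · rintro ⟨i, hi⟩
        exact hd i hi.ne'
    · rintro ⟨hw, ⟨hL, hLd⟩, ⟨hR, hRd⟩⟩
      have hd : ∀ i, i ≠ j → dtn (z j) (z i) < 0 := by
        intro i hi
        rcases lt_or_gt_of_ne hi with h | h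
        · exact hLd ⟨i, h⟩
        · exact hRd ⟨i, h⟩
      have hw2 := (norm_lt_iff _).1 hw
      set w := z j with hwdef
      have hre : 0 < 1 - w.re := by nlinarith [sq_nonneg w.im, sq_nonneg (w.re - 1)]
      have hre2 : (1 - w.re) ^ 2 + w.im ^ 2 < 2 * (1 - w.re) := by nlinarith
      have hq0 : 0 < (1 - w.re) ^ 2 + w.im ^ 2 := by positivity
      have hn : ∀ i, ‖z i‖ < 1 := by
        intro i
        by_cases hi : i = j
        · rw [hi]; exact hw
        · have h1 := hd i hi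
          rw [dtn_eq] at h1
          rw [norm_lt_iff]
          have h2 : 0 < 1 - (z i).re := by
            by_contra h3
            push Not at h3
            have h4 : 0 ≤ ((1 - (z i).re) ^ 2 + (z i).im ^ 2) * (1 - w.re) := by positivity
            nlinarith
          have h5 : ((1 - (z i).re) ^ 2 + (z i).im ^ 2) * (1 - w.re) <
              2 * (1 - (z i).re) * (1 - w.re) := by nlinarith
          have h6 := lt_of_mul_lt_mul_right h5 hre.le
          nlinarith
      set R : ℝ := ((1 - w.re) ^ 2 + w.im ^ 2) / (2 * (1 - w.re)) with hRdef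
      have hR0 : 0 < R := by positivity
      have hRR : 2 * (1 - w.re) * R = (1 - w.re) ^ 2 + w.im ^ 2 := by
        rw [hRdef]; field_simp
      set c : ℂ := ((1 - R : ℝ) : ℂ) with hc
      have hcre : c.re = 1 - R := by rw [hc, Complex.ofReal_re]
      have hcim : c.im = 0 := by rw [hc, Complex.ofReal_im]
      have hform : ∀ y : ℂ, dtn w y = (1 - w.re) * (‖y - c‖ ^ 2 - R ^ 2) := by
        intro y
        rw [dtn_eq, sqn, ← hRR, Complex.sub_re, Complex.sub_im, hcre, hcim]
        ring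
      have hww : dtn w w = 0 := by unfold dtn; ring
      have h1w : (1 : ℂ) ≠ w := ne_one_of hw
      have h1c : ‖(1 : ℂ) - c‖ = R := by
        have : (1 : ℂ) - c = ((R : ℝ) : ℂ) := by rw [hc]; push_cast; ring
        rw [this, Complex.norm_real, Real.norm_eq_abs, abs_of_pos hR0]
      have hwc : ‖w - c‖ = R := by
        have h1 := hform w
        rw [hww] at h1
        have h2 : ‖w - c‖ ^ 2 = R ^ 2 := by
          rcases mul_eq_zero.1 h1.symm with h | h
          · exact absurd h hre.ne'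
          · linarith
        exact (pow_left_inj₀ (norm_nonneg _) hR0.le two_ne_zero).1 h2
      have hic : ∀ i, i ≠ j → ‖z i - c‖ < R := by
        intro i hi
        have h1 := hform (z i)
        have h2 := hd i hi
        rw [h1] at h2
        have h3 : ‖z i - c‖ ^ 2 < R ^ 2 := by
          by_contra h4
          push Not at h4
          have : 0 ≤ (1 - w.re) * (‖z i - c‖ ^ 2 - R ^ 2) := mul_nonneg hre.le (by linarith)
          linarith
        exact lt_of_pow_lt_pow_left₀ 2 hR0.le h3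
      have hPfr := (hK ι c 1 1 R z j h1c h1c hwc h1w h1w hic hL hR).2 rfl
      exact ⟨⟨hPfr, hn⟩, hd⟩
  · intro ι _ _ w hw
    obtain ⟨-, h2, h3⟩ := hD w hw
    have h1w : (1 : ℂ) ≠ w := ne_one_of hw
    have hpos : 0 < ‖1 - w‖ := norm_pos_iff.2 (sub_ne_zero.2 h1w)
    have key : ∀ x : ℝ, ‖1 - w‖ * x < 0 ↔ x < 0 := by
      intro x
      constructor
      · intro h
        by_contra h4
        push Not at h4
        have := mul_nonneg hpos.le h4
        linarith
      · intro h
        exact mul_neg_of_pos_of_neg hpos h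
    constructor
    · ext z
      simp only [FL, ES, Set.mem_ofPred_eq, h2, key]
    · ext z
      simp only [FR, ES, Set.mem_ofPred_eq, h3, key]

end Pool.Agent.Helper48.DISC
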